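import Mathlib
import Pool.Agent.H65.Shore.Fan

/-!
Constants of the exact certificate.
-/

namespace Pool.Agent.H65.Shore

def KX : Cst where
  Lm := [
    [185435057637218738, -452138660676253523, -12742887057242851248, -322896357318158006256,
    779264786263062546022, 7666928005635532390400, 0, 0],
    [],
    [-383091088211607258, -20689851823289590738, 266117520503168559600, 2927282659183021448495,
    -15120722142744942542193, -105307850230789402787840, 0, 0],
    [1183665400426262723, 28290873998570509790, -548127169918369175571, -4796739117478376838628,
    36896315003769826506178, 225234745139993625231360, 0, 0],
    [-793538813456178013, -10568119601361603388, 306935525217970249403, 2243215136914753886257,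
    -23264185698996459758224, -131905749342069362524160, 0, 0]]
  C := 60
  on := 1099511627776
  od := 105663353481
  nL := 49
  N := 250
  X1 := 83477678673305793

end Pool.Agent.H65.Shore
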