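import Mathlib
import Pool.Agent.H65.Shore.Fan

/-!
Constants of the stage one certificate.
-/

namespace Pool.Agent.H65.Shore

def K1 : Cst where
  Lm := [
    [79227484258855633, -2991106878505946039, 22097662171631308800, 51881467707308113920, 0, 0, 0,
    0],
    [],
    [523682567870299815, -2352130672583927694, -53097586390686209803, -142962266571249025024, 0,
    0, 0, 0],
    [-420560144402689407, 2042870154172236562, 41296794279088072130, 104915856919223074816, 0, 0,
    0, 0],
    [0, 0, 0, 0, 0, 0, 0, 0]]
  C := 60
  on := 1099511627776
  od := 98956172329
  nL := 21
  N := 100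
  X1 := 85401592933840517

end Pool.Agent.H65.Shore
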