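import Mathlib
import Pool.Agent.H65.Shore.Data.K1

/-!
Chains of the stage one certificate (mesh by helper81).
-/

namespace Pool.Agent.H65.Shore

def ca0 : ChD where
  dn := 4294967
  bits := []
  m2 := 10
  nt := 1
  g := ⟨0, 41943, 80217, 754, 10, 46, 7, 0, 1099511628, 0⟩
  rn := 0
  m := 0
  cells := [⟨0, 785, 3373259427, 3373259427, 0, 45819877776, 8704, 118374⟩,
    ⟨0, 785, 3373259427, 3373259427, 0, 45171526440, 17346, 235906⟩,
    ⟨0, 785, 3373259427, 3373259427, 0, 41937605998, 25676, 342843⟩,
    ⟨0, 785, 3373259427, 3373259427, 0, 39748478286, 33788, 442215⟩,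
    ⟨0, 785, 3373259427, 3373259427, 0, 10149821907, 37865, 492158⟩,
    ⟨0, 785, 3373259427, 3373259427, 0, 10154728878, 41943, 542113⟩]
  vs := [(0, 0), (1053846, 0), (1032838, 209367), (970656, 410387), (869776, 595046),
    (734221, 755982), (569395, 886780), (381869, 982225), (179119, 1038511), (-30772, 1053396),
    (-239436, 1026284), (-438554, 958259), (-620189, 852030), (-777099, 711834),
    (-903028, 543259), (-992956, 353026), (-1037102, 178876), (-1052416, 0)]

theorem ca0_ok : chainAll K1 ca0 = true := by decide +kernel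

theorem ca0_fan : fullFan ca0.vs = true := by decide +kernel

def ca1 : ChD where
  dn := 4294967
  bits := []
  m2 := 10
  nt := 1
  g := ⟨41943, 80216, 80217, 1129, 14, 55, 9, 0, 1099511628, 0⟩
  rn := 41943
  m := 542113
  cells := [⟨0, 785, 3373259427, 3373259427, 0, 29257434075, 47642, 599388⟩,
    ⟨0, 785, 3373259427, 3373259427, 0, 27204699449, 53136, 654603⟩,
    ⟨0, 785, 3373259427, 3373259427, 0, 24513122688, 58349, 706994⟩,
    ⟨0, 785, 3373259427, 3373259427, 0, 21995262684, 63285, 755860⟩,
    ⟨0, 785, 3373259427, 3373259427, 0, 20401903944, 68041, 794145⟩,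
    ⟨0, 785, 3373259427, 3373259427, 0, 20606290948, 72821, 832624⟩,
    ⟨0, 785, 3373259427, 3373259427, 0, 19912226547, 77519, 870443⟩,
    ⟨0, 785, 3373259427, 3373259427, 0, 6697605525, 80216, 892154⟩]
  vs := [(0, 0), (1053846, 0), (1032838, 209367), (970656, 410387), (869776, 595046),
    (734221, 755982), (569395, 886780), (381869, 982225), (179119, 1038511), (-30772, 1053396),
    (-239436, 1026284), (-438554, 958259), (-620189, 852030), (-777099, 711834),
    (-903028, 543259), (-992956, 353026), (-1037102, 178876), (-1052416, 0)]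

theorem ca1_ok : chainAll K1 ca1 = true := by decide +kernel

theorem ca1_fan : fullFan ca1.vs = true := by decide +kernel

end Pool.Agent.H65.Shore
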